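import Pool.Agent.Work.MP_4cf51e_co.Defs

-- merged part: Pool.Agent.Work.MP_4cf51e_co.Modes
section
/-! A finite system of modes gives an escape of the puppy against every strategy. -/

namespace Pool.Agent.Work.MP_4cf51e_co

open Set Filter Topology NNReal

theorem rind (P : ℝ≥0 → Prop) (T : ℝ≥0) (h1 : ∀ t ≤ T, (∀ s < t, P s) → P t)
    (h2 : ∀ t < T, (∀ s ≤ t, P s) → ∀ᶠ s in 𝓝[>] t, P s) : ∀ t ≤ T, P t := by
  by_contra hn
  push Not at hn
  obtain ⟨b, hb, hPb⟩ := hn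
  let B : Set ℝ≥0 := {t | t ≤ T ∧ ¬ P t}
  have hne : B.Nonempty := ⟨b, hb, hPb⟩
  have hT : sInf B ≤ T := (csInf_le' (show b ∈ B from ⟨hb, hPb⟩)).trans hb
  have k1 : ∀ s < sInf B, P s := fun s hs => by
    by_contra k
    exact absurd (csInf_le' (show s ∈ B from ⟨hs.le.trans hT, k⟩)) (not_le.2 hs)
  have k2 := h1 _ hT k1
  have k3 : ∀ s ≤ sInf B, P s := fun s hs => hs.lt_or_eq.elim (k1 s) fun e => e ▸ k2
  have k4 : ∀ c ∈ B, sInf B < c := fun c hc => not_le.1 fun k => hc.2 (k3 c k)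
  obtain ⟨u, hu, hsub⟩ := mem_nhdsGT_iff_exists_Ioo_subset.1
    (h2 _ ((k4 b ⟨hb, hPb⟩).trans_le hb) k3)
  exact absurd (le_csInf hne fun c hc => not_lt.1 fun k => hc.2 (hsub ⟨k4 c hc, k⟩))
    (not_le.2 hu)

/-- A system of modes. -/
structure Modes (Γ : Set ℂ) (M : Type) (δ : ℝ) where
  U : M → Set ℂ
  π : M → ℂ → ℂ
  cont : ∀ m, Continuous (π m)
  ok : ∀ m, ∀ x ∈ U m, π m x ∈ Γ ∧ Stable Γ x (π m x) ∧ δ ≤ dist x (π m x)
  opn : ∀ m, ∀ x ∈ U m, ∀ᶠ y in 𝓝 x, y ∈ Γ → y ∈ U m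
  ex : ∀ m, ∀ x ∈ closure (U m), x ∉ U m → ∃ m', x ∈ U m' ∧ Run Γ x (π m x) (π m' x)
  fin : ∀ m, (closure (U m) \ U m).Finite

variable {Γ : Set ℂ} {M : Type} {δ : ℝ} {h₀ : ℂ}

theorem Strategy.causal (S : Strategy Γ h₀) {p p' : ℝ≥0 → ℂ} {t : ℝ≥0} (h : EqOn p' p (Iic t)) :
    EqOn (S.walk p') (S.walk p) (Iic t) := by
  obtain ⟨s, hs, w, -, hw⟩ := S.plan p t
  exact (hw p' t hs.le h (by simp) (by simp)).trans
    (hw p t hs.le (fun _ _ => rfl) (by simp) (by simp)).symm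

theorem Strategy.causal' (S : Strategy Γ h₀) {p p' : ℝ≥0 → ℂ} {t : ℝ≥0}
    (h : EqOn p' p (Iio t)) : EqOn (S.walk p') (S.walk p) (Iic t) := by
  rcases eq_or_lt_of_le (zero_le : 0 ≤ t) with rfl | ht
  · intro s hs
    obtain rfl : s = 0 := le_antisymm hs zero_le
    rw [(S.isWalk p').start, (S.isWalk p).start]
  · rw [← closure_Iio' (a := t) ⟨0, ht⟩]
    refine EqOn.closure (fun s hs => ?_) (S.isWalk p').cont (S.isWalk p).cont
    exact S.causal (t := s) (fun r hr => h (mem_Iio.2 (lt_of_le_of_lt (mem_Iic.1 hr) (mem_Iio.1 hs))))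
      (le_refl s)

theorem Modes.exists_nx (Q : Modes Γ M δ) : ∃ nx : M → ℂ → M,
    (∀ m x, x ∈ Q.U m → nx m x = m) ∧ ∀ m, ∀ x ∈ closure (Q.U m),
      x ∈ Q.U (nx m x) ∧ Run Γ x (Q.π m x) (Q.π (nx m x) x) := by
  have : ∀ m x, ∃ m', (x ∈ Q.U m → m' = m) ∧ (x ∈ closure (Q.U m) →
      x ∈ Q.U m' ∧ Run Γ x (Q.π m x) (Q.π m' x)) := fun m x => by
    by_cases h1 : x ∈ Q.U m
    · exact ⟨m, fun _ => rfl, fun _ => ⟨h1, Or.inl rfl⟩⟩
    by_cases h2 : x ∈ closure (Q.U m)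
    · obtain ⟨m', h3⟩ := Q.ex m x h2 h1
      exact ⟨m', fun k => (h1 k).elim, fun _ => h3⟩
    · exact ⟨m, fun _ => rfl, fun k => (h2 k).elim⟩
  choose nx h using this
  exact ⟨nx, fun m x => (h m x).1, fun m x => (h m x).2⟩

/-- A consistent play up to time `T`. -/
structure Good (Q : Modes Γ M δ) (S : Strategy Γ h₀) (nx : M → ℂ → M) (m₀ : M) (p : ℝ≥0 → ℂ)
    (μ : ℝ≥0 → M) (T : ℝ≥0) : Prop where
  z : μ 0 = m₀
  eq : ∀ t ≤ T, p t = Q.π (μ t) (S.walk p t)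
  mem : ∀ t ≤ T, S.walk p t ∈ Q.U (μ t)
  r : ∀ t < T, ∀ᶠ s in 𝓝[>] t, μ s = μ t
  l : ∀ t ≤ T, 0 < t → ∃ m, (∀ᶠ s in 𝓝[<] t, μ s = m) ∧ μ t = nx m (S.walk p t)

variable {Q : Modes Γ M δ} {S : Strategy Γ h₀} {nx : M → ℂ → M} {m₀ : M} {p p' : ℝ≥0 → ℂ}
  {μ μ' : ℝ≥0 → M} {T : ℝ≥0}

theorem Good.mono (h : Good Q S nx m₀ p μ T) {T' : ℝ≥0} (hT : T' ≤ T) : Good Q S nx m₀ p μ T' :=
  ⟨h.z, fun t ht => h.eq t (ht.trans hT), fun t ht => h.mem t (ht.trans hT),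
    fun t ht => h.r t (ht.trans_le hT), fun t ht => h.l t (ht.trans hT)⟩

theorem Good.congr (h : Good Q S nx m₀ p μ T) (hp : EqOn p' p (Iic T)) (hμ : EqOn μ' μ (Iic T)) :
    Good Q S nx m₀ p' μ' T := by
  have hw := S.causal hp
  refine ⟨(hμ (zero_le : 0 ≤ T)).trans h.z, fun t ht => ?_, fun t ht => ?_, fun t ht => ?_,
    fun t ht h0 => ?_⟩
  · rw [hp ht, hμ ht, hw ht, h.eq t ht]
  · rw [hμ ht, hw ht]
    exact h.mem t ht
  · filter_upwards [h.r t ht, Ioo_mem_nhdsGT ht] with s h1 h2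
    rw [hμ h2.2.le, hμ ht.le, h1]
  · obtain ⟨m, h1, h2⟩ := h.l t ht h0
    refine ⟨m, ?_, by rw [hμ ht, hw ht, h2]⟩
    filter_upwards [h1, self_mem_nhdsWithin] with s h3 h4
    rw [hμ ((le_of_lt h4).trans ht), h3]

/-- A play defined on an initial set of times. -/
structure Part (Q : Modes Γ M δ) (S : Strategy Γ h₀) (nx : M → ℂ → M) (m₀ : M) where
  I : Set ℝ≥0
  p : ℝ≥0 → ℂ
  μ : ℝ≥0 → M
  low : ∀ t ∈ I, ∀ s ≤ t, s ∈ I
  good : ∀ t ∈ I, Good Q S nx m₀ p μ t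

/-- Extension of plays. -/
def Part.Le (a b : Part Q S nx m₀) : Prop :=
  a.I ⊆ b.I ∧ EqOn b.p a.p a.I ∧ EqOn b.μ a.μ a.I

theorem part_chain (c : Set (Part Q S nx m₀)) (hc : IsChain Part.Le c) :
    ∃ ub, ∀ a ∈ c, Part.Le a ub := by
  have : ∀ t, ∃ x : ℂ × M, ∀ a ∈ c, t ∈ a.I → x.1 = a.p t ∧ x.2 = a.μ t := fun t => by
    by_cases k : ∃ a ∈ c, t ∈ a.I
    · obtain ⟨a, ha, ht⟩ := k
      refine ⟨(a.p t, a.μ t), fun b hb hbt => ?_⟩
      rcases eq_or_ne a b with rfl | hne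
      · exact ⟨rfl, rfl⟩
      rcases hc ha hb hne with k | k
      · exact ⟨(k.2.1 ht).symm, (k.2.2 ht).symm⟩
      · exact ⟨k.2.1 hbt, k.2.2 hbt⟩
    · exact ⟨(0, m₀), fun a ha ht => (k ⟨a, ha, ht⟩).elim⟩
  choose f hf using this
  refine ⟨⟨{t | ∃ a ∈ c, t ∈ a.I}, fun t => (f t).1, fun t => (f t).2, ?_, ?_⟩, fun a ha => ?_⟩
  · rintro t ⟨a, ha, ht⟩ s hs
    exact ⟨a, ha, a.low t ht s hs⟩
  · rintro t ⟨a, ha, ht⟩
    exact (a.good t ht).congr (fun s hs => (hf s a ha (a.low t ht s hs)).1)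
      fun s hs => (hf s a ha (a.low t ht s hs)).2
  · exact ⟨fun t ht => ⟨a, ha, ht⟩, fun s hs => (hf s a ha hs).1, fun s hs => (hf s a ha hs).2⟩

theorem part_max : ∃ m : Part Q S nx m₀, ∀ a, Part.Le m a → Part.Le a m :=
  exists_maximal_of_chains_bounded part_chain fun h1 h2 =>
    ⟨h1.1.trans h2.1, fun _ ht => (h2.2.1 (h1.1 ht)).trans (h1.2.1 ht),
      fun _ ht => (h2.2.2 (h1.1 ht)).trans (h1.2.2 ht)⟩

theorem Good.extend (hnx : ∀ m x, x ∈ Q.U m → nx m x = m) (h : Good Q S nx m₀ p μ T) :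
    ∃ T', T < T' ∧ ∃ p' μ', Good Q S nx m₀ p' μ' T' ∧ EqOn p' p (Iic T) ∧ EqOn μ' μ (Iic T) := by
  obtain ⟨s, hs, w, hW, hw⟩ := S.plan p T
  have h1 : EqOn (S.walk p) w (Iic T) := hw p T hs.le (fun _ _ => rfl) (by simp) (by simp)
  have h2 : w T ∈ Q.U (μ T) := h1 (le_refl T) ▸ h.mem T le_rfl
  have h3 : ∀ᶠ t in 𝓝[>] T, w t ∈ Q.U (μ T) :=
    ((hW.cont.tendsto T).eventually (Q.opn _ _ h2)).filter_mono nhdsWithin_le_nhds |>.mono
      fun t ht => ht (hW.mem t)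
  obtain ⟨u, hu, hsub⟩ := mem_nhdsGT_iff_exists_Ioc_subset.1 h3
  let p' : ℝ≥0 → ℂ := fun t => if t ≤ T then p t else Q.π (μ T) (w t)
  let μ' : ℝ≥0 → M := fun t => if t ≤ T then μ t else μ T
  have e1 : EqOn p' p (Iic T) := fun t ht => if_pos ht
  have e2 : EqOn μ' μ (Iic T) := fun t ht => if_pos ht
  have e3 : ∀ t, T ≤ t → μ' t = μ T := fun t ht => by
    rcases ht.eq_or_lt with rfl | k
    · exact if_pos le_rfl
    · exact if_neg (not_le.2 k)
  have e4 : ∀ t, T ≤ t → p' t = Q.π (μ T) (w t) := fun t ht => by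
    rcases ht.eq_or_lt with rfl | k
    · rw [e1 (le_refl T), h.eq T le_rfl, h1 (le_refl T)]
    · exact if_neg (not_le.2 k)
  have e5 : EqOn (S.walk p') w (Iic (min u s)) := hw p' _ (min_le_right _ _) e1
    ((((Q.cont (μ T)).comp hW.cont).continuousOn).congr fun t ht => e4 t ht.1) fun t ht => by
      have k : w t ∈ Q.U (μ T) := ht.1.eq_or_lt.elim (fun e => e ▸ h2) fun k =>
        hsub ⟨k, ht.2.le.trans (min_le_left _ _)⟩
      rw [e4 t ht.1]
      exact ⟨(Q.ok _ _ k).1, (Q.ok _ _ k).2.1⟩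
  have g := h.congr e1 e2
  have e6 : ∀ t, T < t → t ≤ min u s → S.walk p' t ∈ Q.U (μ T) := fun t k ht => by
    rw [e5 ht]
    exact hsub ⟨k, ht.trans (min_le_left _ _)⟩
  refine ⟨min u s, lt_min hu hs, p', μ', ⟨g.z, fun t ht => ?_, fun t ht => ?_, fun t _ => ?_,
    fun t ht h0 => ?_⟩, e1, e2⟩
  · rcases le_total t T with k | k
    · exact g.eq t k
    · rw [e4 t k, e3 t k, e5 ht]
  · rcases le_or_gt t T with k | k
    · exact g.mem t k
    · rw [e3 t k.le]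
      exact e6 t k ht
  · rcases lt_or_ge t T with k | k
    · exact g.r t k
    · filter_upwards [self_mem_nhdsWithin] with r hr
      rw [e3 t k, e3 r (k.trans (le_of_lt hr))]
  · rcases le_or_gt t T with k | k
    · exact g.l t k h0
    · refine ⟨μ T, ?_, by rw [e3 t k.le, hnx _ _ (e6 t k ht)]⟩
      filter_upwards [Ioo_mem_nhdsLT k] with r hr
      exact e3 r hr.1.le

theorem mem_closure_left {t : ℝ≥0} (h0 : 0 < t) {m : M} (hm : ∀ᶠ s in 𝓝[<] t, μ s = m)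
    (h : ∀ s < t, S.walk p s ∈ Q.U (μ s)) : S.walk p t ∈ closure (Q.U m) := by
  have := nhdsLT_neBot_of_exists_lt ⟨0, h0⟩
  refine mem_closure_of_tendsto (((S.isWalk p).cont.tendsto t).mono_left
    (nhdsWithin_le_nhds (s := Iio t))) ?_
  filter_upwards [hm, self_mem_nhdsWithin] with s h1 h2
  exact h1 ▸ h s h2

theorem good_settle [Finite M] (hnx : ∀ m x, x ∈ Q.U m → nx m x = m) (h0 : 0 < T)
    (h : ∀ t < T, Good Q S nx m₀ p μ t) : ∃ m, ∀ᶠ s in 𝓝[<] T, μ s = m := by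
  have hfin : ((⋃ m, closure (Q.U m) \ Q.U m) \ {S.walk p T}).Finite :=
    (finite_iUnion Q.fin).subset sdiff_subset
  have h1 : ∀ᶠ t in 𝓝[<] T, S.walk p t ∉ (⋃ m, closure (Q.U m) \ Q.U m) \ {S.walk p T} :=
    (((S.isWalk p).cont.tendsto T).eventually
      (hfin.isClosed.isOpen_compl.mem_nhds fun k => k.2 rfl)).filter_mono nhdsWithin_le_nhds
  obtain ⟨t₀, ht₀, hsub⟩ := (mem_nhdsLT_iff_exists_Ioo_subset' h0).1 h1
  obtain ⟨t₁, ht₁, hc⟩ : ∃ t₁ ∈ Ioo t₀ T, S.walk p t₁ = S.walk p T ∨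
      ∀ t ∈ Ioo t₀ T, S.walk p t ≠ S.walk p T := by
    by_cases k : ∃ t₁ ∈ Ioo t₀ T, S.walk p t₁ = S.walk p T
    · obtain ⟨t₁, k1, k2⟩ := k
      exact ⟨t₁, k1, Or.inl k2⟩
    · obtain ⟨t₁, k1⟩ := exists_between (show t₀ < T from ht₀)
      exact ⟨t₁, k1, Or.inr fun t k2 k3 => k ⟨t, k2, k3⟩⟩
  refine ⟨μ t₁, ?_⟩
  filter_upwards [Ioo_mem_nhdsLT ht₁.2] with t₂ ht₂
  have g := h t₂ ht₂.2
  refine rind (fun s => t₁ ≤ s → μ s = μ t₁) t₂ (fun s hs ih k => ?_) (fun s hs ih => ?_) t₂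
    le_rfl ht₂.1.le
  · rcases k.eq_or_lt with rfl | k
    · rfl
    have k0 : 0 < s := lt_of_le_of_lt zero_le k
    obtain ⟨m, k1, k2⟩ := g.l s hs k0
    have := nhdsLT_neBot_of_exists_lt ⟨0, k0⟩
    obtain ⟨r, k3, k4⟩ := (k1.and (Ioo_mem_nhdsLT k)).exists
    obtain rfl : m = μ t₁ := k3.symm.trans (ih r k4.2 k4.1.le)
    rw [k2]
    refine hnx _ _ (not_not.1 fun k5 => ?_)
    have k6 := mem_closure_left k0 k1 fun r hr => g.mem r (hr.le.trans hs)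
    have k7 : s ∈ Ioo t₀ T := ⟨ht₁.1.trans k, hs.trans_lt ht₂.2⟩
    have k8 : S.walk p s = S.walk p T :=
      not_not.1 fun k9 => hsub k7 ⟨mem_iUnion.2 ⟨_, k6, k5⟩, k9⟩
    rcases hc with hc | hc
    · exact k5 (by rw [k8, ← hc]; exact g.mem t₁ ht₂.1.le)
    · exact hc s k7 k8
  · rcases le_or_gt t₁ s with k | k
    · filter_upwards [g.r s hs] with r hr _
      rw [hr, ih s le_rfl k]
    · filter_upwards [Ioo_mem_nhdsGT k] with r hr k'
      exact absurd hr.2 (not_lt.2 k')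

theorem good_limit [Finite M] (hnx : ∀ m x, x ∈ Q.U m → nx m x = m)
    (hnx' : ∀ m, ∀ x ∈ closure (Q.U m), x ∈ Q.U (nx m x)) (h0 : 0 < T)
    (h : ∀ t < T, Good Q S nx m₀ p μ t) :
    ∃ p' μ', Good Q S nx m₀ p' μ' T ∧ EqOn p' p (Iio T) ∧ EqOn μ' μ (Iio T) := by
  obtain ⟨m, hm⟩ := good_settle hnx h0 h
  have hcl := mem_closure_left h0 hm fun s hs => (h s hs).mem s le_rfl
  let p' : ℝ≥0 → ℂ := fun t => if t < T then p t else Q.π (nx m (S.walk p T)) (S.walk p T)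
  let μ' : ℝ≥0 → M := fun t => if t < T then μ t else nx m (S.walk p T)
  have e1 : EqOn p' p (Iio T) := fun t ht => if_pos ht
  have e2 : EqOn μ' μ (Iio T) := fun t ht => if_pos ht
  have e3 : p' T = Q.π (nx m (S.walk p T)) (S.walk p T) := if_neg (lt_irrefl T)
  have e4 : μ' T = nx m (S.walk p T) := if_neg (lt_irrefl T)
  have e5 : S.walk p' T = S.walk p T := S.causal' e1 (le_refl T)
  have g : ∀ t < T, Good Q S nx m₀ p' μ' t := fun t ht => (h t ht).congr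
    (fun s hs => e1 (lt_of_le_of_lt hs ht)) fun s hs => e2 (lt_of_le_of_lt hs ht)
  refine ⟨p', μ', ⟨(g 0 h0).z, fun t ht => ?_, fun t ht => ?_, fun t ht => ?_,
    fun t ht k0 => ?_⟩, e1, e2⟩
  · rcases ht.eq_or_lt with rfl | k
    · rw [e3, e4, e5]
    · exact (g t k).eq t le_rfl
  · rcases ht.eq_or_lt with rfl | k
    · rw [e4, e5]
      exact hnx' _ _ hcl
    · exact (g t k).mem t le_rfl
  · obtain ⟨u, k1, k2⟩ := exists_between ht
    exact (g u k2).r t k1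
  · rcases ht.eq_or_lt with rfl | k
    · refine ⟨m, ?_, by rw [e4, e5]⟩
      filter_upwards [hm, self_mem_nhdsWithin] with s k1 k2
      rw [e2 k2, k1]
    · exact (g t k).l t le_rfl k0

theorem exists_good [Finite M] (hnx : ∀ m x, x ∈ Q.U m → nx m x = m)
    (hnx' : ∀ m, ∀ x ∈ closure (Q.U m), x ∈ Q.U (nx m x)) (hm : h₀ ∈ Q.U m₀)
    (S : Strategy Γ h₀) : ∃ p μ, ∀ t, Good Q S nx m₀ p μ t := by
  obtain ⟨a, ha⟩ := part_max (Q := Q) (S := S) (nx := nx) (m₀ := m₀)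
  refine ⟨a.p, a.μ, fun t => a.good t (not_not.1 fun ht => ?_)⟩
  have hne : (a.Iᶜ).Nonempty := ⟨t, ht⟩
  have k1 : ∀ s < sInf a.Iᶜ, s ∈ a.I := fun s hs =>
    not_not.1 fun k => absurd (csInf_le' (show s ∈ a.Iᶜ from k)) (not_le.2 hs)
  have k2 : ∀ s ∈ a.I, s ≤ sInf a.Iᶜ := fun s hs =>
    le_csInf hne fun b hb => not_lt.1 fun k => hb (a.low s hs b k.le)
  have k3 : ∀ T p' μ', Good Q S nx m₀ p' μ' T → sInf a.Iᶜ ≤ T → EqOn p' a.p a.I →
      EqOn μ' a.μ a.I → T ∈ a.I := fun T p' μ' h1 h2 h3 h4 =>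
    (ha ⟨Iic T, p', μ', fun _ k _ k' => k'.trans k, fun _ k => h1.mono k⟩
      ⟨fun s hs => (k2 s hs).trans h2, h3, h4⟩).1 (le_refl T)
  by_cases k4 : sInf a.Iᶜ ∈ a.I
  · obtain ⟨T, h1, p', μ', h2, h3, h4⟩ := (a.good _ k4).extend hnx
    exact absurd (k2 T (k3 T p' μ' h2 h1.le (fun s hs => h3 (k2 s hs))
      fun s hs => h4 (k2 s hs))) (not_le.2 h1)
  have k5 : ∀ s ∈ a.I, s < sInf a.Iᶜ := fun s hs =>
    (k2 s hs).lt_of_ne fun e => k4 (e ▸ hs)
  rcases eq_or_lt_of_le (zero_le : 0 ≤ sInf a.Iᶜ) with h0 | h0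
  · refine k4 (k3 _ (fun _ => Q.π m₀ h₀) (fun _ => m₀) ?_ le_rfl
      (fun s hs => absurd (h0 ▸ k5 s hs) (not_lt.2 zero_le))
      fun s hs => absurd (h0 ▸ k5 s hs) (not_lt.2 zero_le))
    rw [← h0]
    refine ⟨rfl, fun s hs => ?_, fun s hs => ?_,
      fun s hs => .of_forall fun _ => rfl, fun s hs k => absurd k (not_lt.2 hs)⟩ <;>
      obtain rfl : s = 0 := le_antisymm hs zero_le <;> rw [(S.isWalk _).start]
    exact hm
  · obtain ⟨p', μ', h2, h3, h4⟩ := good_limit hnx hnx' h0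
      fun s hs => a.good s (k1 s hs)
    exact k4 (k3 _ p' μ' h2 le_rfl (fun s hs => h3 (k5 s hs)) fun s hs => h4 (k5 s hs))

theorem good_follows (hnx' : ∀ m, ∀ x ∈ closure (Q.U m),
    x ∈ Q.U (nx m x) ∧ Run Γ x (Q.π m x) (Q.π (nx m x) x)) (g : ∀ t, Good Q S nx m₀ p μ t) :
    Follows Γ (Q.π m₀ h₀) (S.walk p) p ∧ ∀ t, δ ≤ dist (S.walk p t) (p t) := by
  have e : ∀ t, p t = Q.π (μ t) (S.walk p t) := fun t => (g t).eq t le_rfl
  have k : ∀ t, p t ∈ Γ ∧ Stable Γ (S.walk p t) (p t) ∧ δ ≤ dist (S.walk p t) (p t) := fun t => by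
    rw [e t]
    exact Q.ok _ _ ((g t).mem t le_rfl)
  have c : ∀ m t, Tendsto (fun s => Q.π m (S.walk p s)) (𝓝 t) (𝓝 (Q.π m (S.walk p t))) :=
    fun m t => ((Q.cont m).comp (S.isWalk p).cont).tendsto t
  refine ⟨⟨Or.inl ?_, fun t => (k t).1, fun t => (k t).2.1, fun t => ?_, fun t h0 => ?_⟩,
    fun t => (k t).2.2⟩
  · rw [e 0, (g 0).z, (S.isWalk p).start]
  · rw [← continuousWithinAt_Ioi_iff_Ici, ContinuousWithinAt, e t]
    refine ((c (μ t) t).mono_left nhdsWithin_le_nhds).congr' ?_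
    filter_upwards [(g (t + 1)).r t (lt_add_one t)] with s hs
    rw [e s, hs]
  · obtain ⟨m, k1, k2⟩ := (g t).l t le_rfl h0
    refine ⟨Q.π m (S.walk p t), ((c m t).mono_left nhdsWithin_le_nhds).congr' ?_, ?_⟩
    · filter_upwards [k1] with s hs
      rw [e s, hs]
    · rw [e t, k2]
      exact (hnx' m _ (mem_closure_left h0 k1 fun s _ => (g s).mem s le_rfl)).2

theorem Good.unique {S' : Strategy Γ h₀} (g : Good Q S nx m₀ p μ T) (g' : Good Q S' nx m₀ p' μ' T)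
    (h : EqOn (S.walk p) (S'.walk p') (Iic T)) : EqOn p p' (Iic T) := by
  have k := rind (fun s => μ s = μ' s) T (fun t ht ih => ?_) fun t ht ih => ?_
  · exact fun t ht => by rw [g.eq t ht, g'.eq t ht, k t ht, h ht]
  · rcases eq_or_lt_of_le (zero_le : 0 ≤ t) with rfl | h0
    · exact g.z.trans g'.z.symm
    obtain ⟨m, k1, k2⟩ := g.l t ht h0
    obtain ⟨m', k3, k4⟩ := g'.l t ht h0
    have := nhdsLT_neBot_of_exists_lt ⟨0, h0⟩
    obtain ⟨r, ⟨k5, k6⟩, k7⟩ := ((k1.and k3).and self_mem_nhdsWithin).exists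
    rw [k2, k4, h ht, ← k5, ← k6, ih r k7]
  · filter_upwards [g.r t ht, g'.r t ht] with s k1 k2
    rw [k1, k2, ih t le_rfl]

/-- The strategy that follows a given walk. -/
def Walk.strategy {h : ℝ≥0 → ℂ} (w : Walk Γ h₀ h) : Strategy Γ h₀ :=
  ⟨fun _ => h, fun _ => w, fun _ t => ⟨t + 1, lt_add_one t, h, w, fun _ _ _ _ _ _ _ _ => rfl⟩⟩

theorem Modes.escape [Finite M] (Q : Modes Γ M δ) {m₀ : M} (hm : h₀ ∈ Q.U m₀) :
    ∃ R : (ℝ≥0 → ℂ) → ℝ≥0 → ℂ,
      (∀ h h' t, Walk Γ h₀ h → Walk Γ h₀ h' → EqOn h h' (Iic t) → EqOn (R h) (R h') (Iic t)) ∧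
      (∀ h, Walk Γ h₀ h → Follows Γ (Q.π m₀ h₀) h (R h) ∧ ∀ t, δ ≤ dist (h t) (R h t)) ∧
      ∀ S : Strategy Γ h₀, ∃ p, p = R (S.walk p) := by
  classical
  obtain ⟨nx, hnx, hnx'⟩ := Q.exists_nx
  choose P μ g using exists_good hnx (fun m x hx => (hnx' m x hx).1) hm
  refine ⟨fun h => if w : Walk Γ h₀ h then P w.strategy else 0, fun h h' t w w' e => ?_,
    fun h w => ?_, fun S => ⟨P S, funext fun t => ?_⟩⟩
  · simp only [dif_pos w, dif_pos w']
    exact (g _ t).unique (g _ t) e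
  · simp only [dif_pos w]
    exact good_follows hnx' (g w.strategy)
  · simp only [dif_pos (S.isWalk _)]
    exact (g S t).unique (g (S.isWalk (P S)).strategy t) (fun _ _ => rfl) (le_refl t)

end Pool.Agent.Work.MP_4cf51e_co
end

-- merged part: Pool.Agent.Work.MP_4cf51e_co.Geo
section
/-! Plane geometry of segments, and projection on a segment. -/

namespace Pool.Agent.Work.MP_4cf51e_co

open Set Filter Topology

/-- scalar product of `b - a` and `x - a` -/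
def dd (a b x : ℂ) : ℝ := (b.re - a.re) * (x.re - a.re) + (b.im - a.im) * (x.im - a.im)

/-- determinant of `b - a` and `x - a` -/
def cc (a b x : ℂ) : ℝ := (b.re - a.re) * (x.im - a.im) - (b.im - a.im) * (x.re - a.re)

/-- the point with parameter `s` on the line through `a` and `b` -/
noncomputable def pt (a b : ℂ) (s : ℝ) : ℂ := a + s • (b - a)

theorem pt_re (a b : ℂ) (s : ℝ) : (pt a b s).re = a.re + s * (b.re - a.re) := by simp [pt]

theorem pt_im (a b : ℂ) (s : ℝ) : (pt a b s).im = a.im + s * (b.im - a.im) := by simp [pt]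

theorem pt_zero (a b : ℂ) : pt a b 0 = a := by simp [pt]

theorem pt_one (a b : ℂ) : pt a b 1 = b := by simp [pt]

theorem mem_seg {a b x : ℂ} : x ∈ segment ℝ a b ↔ ∃ s ∈ Icc (0 : ℝ) 1, x = pt a b s := by
  rw [segment_eq_image']
  exact ⟨fun ⟨s, h1, h2⟩ => ⟨s, h1, h2.symm⟩, fun ⟨s, h1, h2⟩ => ⟨s, h1, h2.symm⟩⟩

theorem dd_pt (a b c d : ℂ) (s : ℝ) : dd a b (pt c d s) = (1 - s) * dd a b c + s * dd a b d := by
  simp only [dd, pt_re, pt_im]; ring

theorem cc_pt (a b c d : ℂ) (s : ℝ) : cc a b (pt c d s) = (1 - s) * cc a b c + s * cc a b d := by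
  simp only [cc, pt_re, pt_im]; ring

theorem cc_left (a b : ℂ) : cc a b a = 0 := by simp [cc]

theorem cc_right (a b : ℂ) : cc a b b = 0 := by simp only [cc]; ring

theorem cc_seg {a b x : ℂ} (h : x ∈ segment ℝ a b) : cc a b x = 0 := by
  obtain ⟨s, -, rfl⟩ := mem_seg.1 h
  rw [cc_pt, cc_left, cc_right]; ring

theorem dd_add (a b x : ℂ) : dd a b x + dd b a x = dd a b b := by simp only [dd]; ring

theorem dd_pos {a b : ℂ} (h : a ≠ b) : 0 < dd a b b := by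
  by_contra hn
  simp only [dd] at hn
  exact h (Complex.ext (by nlinarith [mul_self_nonneg (b.re - a.re), mul_self_nonneg (b.im - a.im)])
    (by nlinarith [mul_self_nonneg (b.re - a.re), mul_self_nonneg (b.im - a.im)]))

theorem continuous_dd (a b : ℂ) : Continuous (dd a b) := by unfold dd; fun_prop

theorem comb_ne {u v s : ℝ} (h : 0 < u * v) (hs : s ∈ Icc (0 : ℝ) 1) : (1 - s) * u + s * v ≠ 0 := by
  intro k
  have h1 := hs.1
  have h2 := sub_nonneg.2 hs.2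
  rcases pos_and_pos_or_neg_and_neg_of_mul_pos h with ⟨a, b⟩ | ⟨a, b⟩
  · nlinarith [mul_nonneg h2 a.le, mul_nonneg h1 b.le, min_le_left u v, min_le_right u v,
      lt_min a b, mul_nonneg h2 (sub_nonneg.2 (min_le_left u v)),
      mul_nonneg h1 (sub_nonneg.2 (min_le_right u v))]
  · nlinarith [max_lt a b, mul_nonneg h2 (sub_nonneg.2 (le_max_left u v)),
      mul_nonneg h1 (sub_nonneg.2 (le_max_right u v))]

theorem seg_sep {a b c d x : ℂ} (h : 0 < cc a b c * cc a b d) (h1 : x ∈ segment ℝ a b)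
    (h2 : x ∈ segment ℝ c d) : False := by
  obtain ⟨s, hs, rfl⟩ := mem_seg.1 h2
  exact comb_ne h hs (by rw [← cc_pt]; exact cc_seg h1)

theorem seg_touch {a b c d x : ℂ} (h0 : cc a b c = 0) (h : cc a b d ≠ 0) (h1 : x ∈ segment ℝ a b)
    (h2 : x ∈ segment ℝ c d) : x = c := by
  obtain ⟨s, -, rfl⟩ := mem_seg.1 h2
  have k := cc_seg h1
  rw [cc_pt, h0, mul_zero, zero_add] at k
  rw [(mul_eq_zero.1 k).resolve_right h, pt_zero]

/-- projection, clamped at the end `b` -/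
noncomputable def proj (a b x : ℂ) : ℂ := pt a b (min (dd a b x / dd a b b) 1)

theorem continuous_proj (a b : ℂ) : Continuous (proj a b) := by
  have := continuous_dd a b
  unfold proj pt
  fun_prop

theorem proj_mem {a b x : ℂ} (hab : a ≠ b) (h : 0 ≤ dd a b x) : proj a b x ∈ segment ℝ a b :=
  mem_seg.2 ⟨_, ⟨le_min (div_nonneg h (dd_pos hab).le) zero_le_one, min_le_right _ _⟩, rfl⟩

theorem proj_left {a b x : ℂ} (h : dd a b x = 0) : proj a b x = a := by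
  rw [proj, h, zero_div, min_eq_left zero_le_one, pt_zero]

theorem proj_right {a b x : ℂ} (hab : a ≠ b) (h : dd b a x = 0) : proj a b x = b := by
  have k := dd_add a b x
  rw [h, add_zero] at k
  rw [proj, k, div_self (dd_pos hab).ne', min_self, pt_one]

theorem pt_inj {a b : ℂ} (hab : a ≠ b) {s t : ℝ} (h : pt a b s = pt a b t) : s = t :=
  smul_left_injective ℝ (sub_ne_zero.2 hab.symm) (add_left_cancel h)

theorem proj_ne_left {a b x : ℂ} (hab : a ≠ b) (h : 0 < dd a b x) : proj a b x ≠ a := fun k =>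
  (lt_min (div_pos h (dd_pos hab)) one_pos).ne' (pt_inj hab (k.trans (pt_zero a b).symm))

theorem proj_ne_right {a b x : ℂ} (hab : a ≠ b) (h : 0 < dd b a x) : proj a b x ≠ b := fun k => by
  have k1 := pt_inj hab (k.trans (pt_one a b).symm)
  have k2 : dd a b x / dd a b b < 1 := (div_lt_one (dd_pos hab)).2 (by linarith [dd_add a b x])
  rw [min_eq_left k2.le] at k1
  exact k2.ne k1

theorem proj_obtuse {a b x y : ℂ} (hab : a ≠ b) (hy : y ∈ segment ℝ a b) :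
    dd (proj a b x) y x ≤ 0 := by
  obtain ⟨s, hs, rfl⟩ := mem_seg.1 hy
  have hp := dd_pos hab
  have key : ∀ τ, dd (pt a b τ) (pt a b s) x = (s - τ) * (dd a b x - τ * dd a b b) := fun τ => by
    simp only [dd, pt_re, pt_im]; ring
  rw [proj, key]
  rcases le_total (dd a b x / dd a b b) 1 with k | k
  · rw [min_eq_left k, div_mul_cancel₀ _ hp.ne', sub_self, mul_zero]
  · rw [min_eq_right k]
    exact mul_nonpos_of_nonpos_of_nonneg (sub_nonpos.2 hs.2)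
      (by linarith [(one_le_div hp).1 k])

theorem dist_le_of_obtuse {q y x : ℂ} (h : dd q y x ≤ 0) : dist x q ≤ dist x y := by
  rw [Complex.dist_eq_re_im, Complex.dist_eq_re_im]
  refine Real.sqrt_le_sqrt ?_
  simp only [dd] at h
  nlinarith [sq_nonneg (y.re - q.re), sq_nonneg (y.im - q.im)]

theorem run_of_obtuse {Γ : Set ℂ} {q v x : ℂ} (h : dd q v x ≤ 0) (hne : q ≠ v)
    (hΓ : segment ℝ v q ⊆ Γ) : Run Γ x v q := by
  refine Or.inr ⟨pt v q, by unfold pt; fun_prop, pt_zero _ _, pt_one _ _,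
    fun s hs => hΓ (mem_seg.2 ⟨s, hs, rfl⟩), fun s _ t ht hst => ?_⟩
  have hp := dd_pos hne
  simp only [Complex.dist_eq_re_im]
  refine Real.sqrt_lt_sqrt (by positivity) ?_
  have key : ∀ τ, (x.re - (pt v q τ).re) ^ 2 + (x.im - (pt v q τ).im) ^ 2 =
      ((x.re - q.re) ^ 2 + (x.im - q.im) ^ 2) - 2 * (1 - τ) * dd q v x +
        (1 - τ) ^ 2 * dd q v v := fun τ => by
    simp only [dd, pt_re, pt_im]; ring
  rw [key, key]
  have h1 : 0 < t - s := sub_pos.2 hst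
  have h2 : 0 ≤ 1 - t := sub_nonneg.2 ht.2
  nlinarith [mul_nonneg h1.le (neg_nonneg.2 h), mul_pos (mul_pos h1 h1) hp,
    mul_nonneg (mul_nonneg h1.le h2) hp.le]

/-- sign of an affine function at the zero of another one -/
theorem pos_at {l0 l1 q0 q1 s : ℝ} (h0 : (1 - s) * l0 + s * l1 = 0)
    (h : 0 < (l0 * q1 - l1 * q0) * (l0 - l1)) : 0 < (1 - s) * q0 + s * q1 := by
  have k : (l0 * q1 - l1 * q0) * (l0 - l1) = (l0 - l1) ^ 2 * ((1 - s) * q0 + s * q1) := by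
    linear_combination (l0 - l1) * (q1 - q0) * h0
  rw [k] at h
  exact lt_of_not_ge fun k' => absurd h (not_lt.2 (mul_nonpos_of_nonneg_of_nonpos (sq_nonneg _) k'))

theorem isCompact_seg (a b : ℂ) : IsCompact (segment ℝ a b) := by
  rw [segment_eq_image']
  exact isCompact_Icc.image (by fun_prop)

/-- near `y`, a finite union of segments consists of the segments through `y` -/
theorem near_seg {ι : Type} [Finite ι] (a b : ι → ℂ) (y : ℂ) :
    ∀ᶠ q in 𝓝 y, ∀ e, q ∈ segment ℝ (a e) (b e) → y ∈ segment ℝ (a e) (b e) := by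
  refine eventually_all.2 fun e => ?_
  by_cases h : y ∈ segment ℝ (a e) (b e)
  · exact .of_forall fun _ _ => h
  · filter_upwards [(isCompact_seg (a e) (b e)).isClosed.isOpen_compl.mem_nhds h] with q h1 h2
    exact (h1 h2).elim

theorem zero_fin {c d a b : ℂ} (h : dd a b c ≠ dd a b d ∨ 0 < dd a b c * dd a b d) :
    {x | x ∈ segment ℝ c d ∧ dd a b x = 0}.Finite := by
  refine Set.Subsingleton.finite ?_
  rintro x ⟨h1, h2⟩ y ⟨h3, h4⟩
  obtain ⟨s, hs, rfl⟩ := mem_seg.1 h1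
  obtain ⟨t, -, rfl⟩ := mem_seg.1 h3
  rw [dd_pt] at h2 h4
  rcases h with h | h
  · have : (s - t) * (dd a b c - dd a b d) = 0 := by linear_combination h4 - h2
    rw [sub_eq_zero.1 ((mul_eq_zero.1 this).resolve_right (sub_ne_zero.2 h))]
  · exact (comb_ne h hs h2).elim

end Pool.Agent.Work.MP_4cf51e_co
end

-- merged part: Pool.Agent.Work.MP_4cf51e_co.Cert
section
/-! Certificates. The modes are the edges: in mode `m` the puppy is at the point of the edge `m`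
nearest to the human, who is on one of the edges `f` with `F m f`. -/

namespace Pool.Agent.Work.MP_4cf51e_co

open Set Filter Topology

/-- integer data of a drawing and of a trap -/
structure Dat (N K : ℕ) where
  px : Fin N → ℤ
  py : Fin N → ℤ
  ea : Fin K → Fin N
  eb : Fin K → Fin N
  lf : Fin K → Bool
  F : Fin K → Fin K → Bool

namespace Dat

variable {N K : ℕ} (D : Dat N K)

/-- position of a vertex -/
def pos (v : Fin N) : ℂ := ⟨D.px v, D.py v⟩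

/-- scalar product -/
def dz (a b c : Fin N) : ℤ :=
  (D.px b - D.px a) * (D.px c - D.px a) + (D.py b - D.py a) * (D.py c - D.py a)

/-- determinant -/
def cz (a b c : Fin N) : ℤ :=
  (D.px b - D.px a) * (D.py c - D.py a) - (D.py b - D.py a) * (D.px c - D.px a)

theorem dd_eq (a b c : Fin N) : dd (D.pos a) (D.pos b) (D.pos c) = D.dz a b c := by
  simp [dd, pos, dz]

theorem cc_eq (a b c : Fin N) : cc (D.pos a) (D.pos b) (D.pos c) = D.cz a b c := by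
  simp [cc, pos, cz]

/-- the segment of an edge -/
def seg (e : Fin K) : Set ℂ := segment ℝ (D.pos (D.ea e)) (D.pos (D.eb e))

/-- separation test -/
abbrev Sep (a b c d : Fin N) : Prop :=
  0 < D.cz a b c * D.cz a b d ∨ 0 < D.cz c d a * D.cz c d b ∨
    ((c = a ∨ c = b) ∧ D.cz a b d ≠ 0) ∨ ((d = a ∨ d = b) ∧ D.cz a b c ≠ 0)

/-- the vertex `v` is in the range of the mode `m` -/
abbrev Inr (m : Fin K) (v : Fin N) : Prop :=
  0 < D.dz (D.ea m) (D.eb m) v ∧ (D.lf m = true ∨ 0 < D.dz (D.eb m) (D.ea m) v)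

/-- positivity of `dd a b` at the zero of `dd v w` on the edge `f` -/
abbrev PosAt (v w : Fin N) (f : Fin K) (a b : Fin N) : Prop :=
  0 < (D.dz v w (D.ea f) * D.dz a b (D.eb f) - D.dz v w (D.eb f) * D.dz a b (D.ea f)) *
    (D.dz v w (D.ea f) - D.dz v w (D.eb f))

/-- exit test -/
abbrev Exit (v w : Fin N) (f : Fin K) : Prop :=
  0 < D.dz v w (D.ea f) * D.dz v w (D.eb f) ∨
    ∃ m, (v = D.ea m ∨ v = D.eb m) ∧ D.F m f = true ∧ D.PosAt v w f (D.ea m) (D.eb m) ∧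
      ((D.lf m = true ∧ v = D.ea m) ∨ D.PosAt v w f (D.eb m) (D.ea m))

/-- all tests -/
structure Ok : Prop where
  inj : ∀ a b, D.px a = D.px b → D.py a = D.py b → a = b
  ne : ∀ e, D.ea e ≠ D.eb e
  cov : ∀ v, ∃ e, v = D.ea e ∨ v = D.eb e
  sep : ∀ e f, e ≠ f → D.Sep (D.ea e) (D.eb e) (D.ea f) (D.eb f)
  dis : ∀ m f, D.F m f = true → ¬ (D.ea f = D.ea m ∨ D.ea f = D.eb m) ∧
    ¬ (D.eb f = D.ea m ∨ D.eb f = D.eb m)
  clo : ∀ m f, D.F m f = true → ∀ g,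
    ((D.ea f = D.ea g ∨ D.ea f = D.eb g) → D.Inr m (D.ea f) → D.F m g = true) ∧
    ((D.eb f = D.ea g ∨ D.eb f = D.eb g) → D.Inr m (D.eb f) → D.F m g = true)
  leaf : ∀ m, D.lf m = true → ∀ g, g ≠ m → ¬ (D.eb m = D.ea g ∨ D.eb m = D.eb g)
  ext : ∀ m f, D.F m f = true →
    D.Exit (D.ea m) (D.eb m) f ∧ (D.lf m = true ∨ D.Exit (D.eb m) (D.ea m) f)

/-- the graph -/
def graph : SimpleGraph (Fin N) := SimpleGraph.fromRel fun a b => ∃ e, D.ea e = a ∧ D.eb e = b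

/-- domain of a mode -/
def U (m : Fin K) : Set ℂ :=
  {x | (∃ f, D.F m f = true ∧ x ∈ D.seg f) ∧ 0 < dd (D.pos (D.ea m)) (D.pos (D.eb m)) x ∧
    (D.lf m = true ∨ 0 < dd (D.pos (D.eb m)) (D.pos (D.ea m)) x)}

/-- position of the puppy in a mode -/
noncomputable def pp (m : Fin K) : ℂ → ℂ := proj (D.pos (D.ea m)) (D.pos (D.eb m))

variable {D}

theorem Ok.pinj (h : D.Ok) : Function.Injective D.pos := fun a b k =>
  h.inj a b (Int.cast_injective (α := ℝ) (congrArg Complex.re k))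
    (Int.cast_injective (α := ℝ) (congrArg Complex.im k))

theorem Ok.pne (h : D.Ok) (e : Fin K) : D.pos (D.ea e) ≠ D.pos (D.eb e) := fun k =>
  h.ne e (h.pinj k)

theorem cz_zero {a b c : Fin N} (h : c = a ∨ c = b) : cc (D.pos a) (D.pos b) (D.pos c) = 0 := by
  rcases h with rfl | rfl
  · exact cc_left _ _
  · exact cc_right _ _

theorem Ok.inter (h : D.Ok) {e f : Fin K} (hef : e ≠ f) {x : ℂ} (h1 : x ∈ D.seg e)
    (h2 : x ∈ D.seg f) :
    ∃ v, (v = D.ea e ∨ v = D.eb e) ∧ (v = D.ea f ∨ v = D.eb f) ∧ x = D.pos v := by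
  rcases h.sep e f hef with k | k | ⟨k1, k2⟩ | ⟨k1, k2⟩
  · exact (seg_sep (by rw [cc_eq, cc_eq]; exact_mod_cast k) h1 h2).elim
  · exact (seg_sep (by rw [cc_eq, cc_eq]; exact_mod_cast k) h2 h1).elim
  · exact ⟨_, k1, Or.inl rfl,
      seg_touch (cz_zero k1) (by rw [cc_eq]; exact_mod_cast k2) h1 h2⟩
  · exact ⟨_, k1, Or.inr rfl,
      seg_touch (cz_zero k1) (by rw [cc_eq]; exact_mod_cast k2) h1
        (by rw [segment_symm]; exact h2)⟩

theorem adj_edge {a b : Fin N} (h : D.graph.Adj a b) : ∃ e, segment ℝ (D.pos a) (D.pos b) =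
    D.seg e ∧ s(a, b) = s(D.ea e, D.eb e) ∧ ∀ v, (v = D.ea e ∨ v = D.eb e) → (v = a ∨ v = b) := by
  rcases ((SimpleGraph.fromRel_adj _ _ _).1 h).2 with ⟨e, rfl, rfl⟩ | ⟨e, rfl, rfl⟩
  · exact ⟨e, rfl, rfl, fun _ k => k⟩
  · exact ⟨e, segment_symm ℝ _ _, Sym2.eq_swap, fun _ k => k.symm⟩

theorem Ok.adj (h : D.Ok) (e : Fin K) : D.graph.Adj (D.ea e) (D.eb e) :=
  (SimpleGraph.fromRel_adj _ _ _).2 ⟨h.ne e, Or.inl ⟨e, rfl, rfl⟩⟩

theorem pos_mem {e : Fin K} {v : Fin N} (h : v = D.ea e ∨ v = D.eb e) : D.pos v ∈ D.seg e := by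
  rcases h with rfl | rfl
  · exact left_mem_segment ℝ _ _
  · exact right_mem_segment ℝ _ _

theorem Ok.emb (h : D.Ok) : PlaneEmb D.graph D.pos := by
  refine ⟨h.pinj, fun v a b hab hv => ?_, fun a b c d hab hcd hne x h1 h2 => ?_⟩
  · obtain ⟨e, k1, -, k2⟩ := adj_edge hab
    obtain ⟨f, hf⟩ := h.cov v
    by_cases k : e = f
    · exact k2 v (k ▸ hf)
    · obtain ⟨u, k3, -, k4⟩ := h.inter k (k1 ▸ hv) (pos_mem hf)
      exact k2 v (h.pinj k4 ▸ k3)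
  · obtain ⟨e, k1, k2, k3⟩ := adj_edge hab
    obtain ⟨f, k4, k5, k6⟩ := adj_edge hcd
    obtain ⟨u, k7, k8, k9⟩ := h.inter (e := e) (f := f)
      (fun k => hne (by rw [k2, k5, k])) (k1 ▸ h1) (k4 ▸ h2)
    exact ⟨u, k3 u k7, k6 u k8, k9⟩

theorem Ok.mem_drawing (h : D.Ok) {x : ℂ} : x ∈ drawing D.graph D.pos ↔ ∃ e, x ∈ D.seg e := by
  constructor
  · rintro (⟨v, rfl⟩ | ⟨a, b, hab, hx⟩)
    · obtain ⟨e, he⟩ := h.cov v
      exact ⟨e, pos_mem he⟩
    · obtain ⟨e, k, -⟩ := adj_edge hab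
      exact ⟨e, k ▸ hx⟩
  · rintro ⟨e, he⟩
    exact Or.inr ⟨_, _, h.adj e, he⟩

theorem near (D : Dat N K) (y : ℂ) : ∀ᶠ q in 𝓝 y, ∀ e, q ∈ D.seg e → y ∈ D.seg e :=
  near_seg (fun e => D.pos (D.ea e)) (fun e => D.pos (D.eb e)) y

theorem Ok.delta (h : D.Ok) : ∃ δ > 0, ∀ m f, D.F m f = true → ∀ x ∈ D.seg f, ∀ y ∈ D.seg m,
    δ ≤ dist x y := by
  have : ∀ᶠ δ in 𝓝[>] (0 : ℝ), ∀ m f, D.F m f = true → ∀ x ∈ D.seg f, ∀ y ∈ D.seg m,
      δ ≤ dist x y := by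
    refine eventually_all.2 fun m => eventually_all.2 fun f => eventually_all.2 fun hF => ?_
    have hd : Disjoint (D.seg f) (D.seg m) := Set.disjoint_left.2 fun x h1 h2 => by
      obtain ⟨k1, k2⟩ := h.dis m f hF
      obtain ⟨v, rfl | rfl, k3, -⟩ := h.inter (e := f) (f := m)
        (fun k => k1 (Or.inl (k ▸ rfl))) h1 h2
      · exact k1 k3
      · exact k2 k3
    obtain ⟨r, r0, hr⟩ := Metric.exists_pos_forall_lt_edist (isCompact_seg _ _)
      (isCompact_seg _ _).isClosed hd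
    filter_upwards [Ioo_mem_nhdsGT (show (0 : ℝ) < r from r0)] with δ hδ x hx y hy
    have k := hr x hx y hy
    rw [edist_nndist, ENNReal.coe_lt_coe] at k
    exact hδ.2.le.trans (NNReal.coe_le_coe.2 k.le)
  obtain ⟨δ, h1, h2⟩ := (this.and self_mem_nhdsWithin).exists
  exact ⟨δ, h2, h1⟩

theorem Ok.stable (h : D.Ok) {m : Fin K} {x : ℂ} (hx : x ∈ D.U m) :
    Stable (drawing D.graph D.pos) x (D.pp m x) := by
  obtain ⟨ε, h1, h2⟩ := Metric.eventually_nhds_iff.1 (D.near (D.pp m x))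
  refine ⟨ε / 2, half_pos h1, fun q hq hd => ?_⟩
  obtain ⟨e, he⟩ := h.mem_drawing.1 hq
  have h3 := h2 (show dist q (D.pp m x) < ε by rw [dist_comm]; linarith) e he
  obtain rfl : e = m := by
    by_contra k
    obtain ⟨v, k1, rfl | rfl, k2⟩ := h.inter k h3 (proj_mem (h.pne m) hx.2.1.le)
    · exact proj_ne_left (h.pne m) hx.2.1 k2
    · rcases hx.2.2 with k3 | k3
      · exact h.leaf m k3 e k k1
      · exact proj_ne_right (h.pne m) k3 k2
  exact dist_le_of_obtuse (proj_obtuse (h.pne e) he)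

theorem Ok.opn (h : D.Ok) {m : Fin K} {x : ℂ} (hx : x ∈ D.U m) :
    ∀ᶠ y in 𝓝 x, y ∈ drawing D.graph D.pos → y ∈ D.U m := by
  obtain ⟨⟨f, hF, hf⟩, h1, h2⟩ := hx
  have h3 : ∀ᶠ y in 𝓝 x, D.lf m = true ∨ 0 < dd (D.pos (D.eb m)) (D.pos (D.ea m)) y := by
    rcases h2 with k | k
    · exact .of_forall fun _ => Or.inl k
    · exact (((continuous_dd _ _).tendsto x).eventually (lt_mem_nhds k)).mono fun _ => Or.inr
  filter_upwards [D.near x, ((continuous_dd _ _).tendsto x).eventually (lt_mem_nhds h1), h3]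
    with y k1 k2 k3 hy
  obtain ⟨g, hg⟩ := h.mem_drawing.1 hy
  refine ⟨⟨g, ?_, hg⟩, k2, k3⟩
  by_cases k : f = g
  · exact k ▸ hF
  obtain ⟨v, k4, k5, rfl⟩ := h.inter k hf (k1 g hg)
  have k6 : D.Inr m v := by
    rw [dd_eq] at h1 h2
    exact ⟨by exact_mod_cast h1, h2.imp id fun k => by exact_mod_cast k⟩
  rcases k4 with rfl | rfl
  · exact (h.clo m f hF g).1 k5 k6
  · exact (h.clo m f hF g).2 k5 k6

theorem closure_U {m : Fin K} {x : ℂ} (h1 : x ∈ closure (D.U m)) (h2 : x ∉ D.U m) :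
    ∃ f, D.F m f = true ∧ x ∈ D.seg f ∧ (dd (D.pos (D.ea m)) (D.pos (D.eb m)) x = 0 ∨
      (¬ D.lf m = true ∧ dd (D.pos (D.eb m)) (D.pos (D.ea m)) x = 0)) := by
  have k1 : x ∈ ⋃ f ∈ {f | D.F m f = true}, D.seg f :=
    closure_minimal (fun y hy => hy.1.elim fun f k => mem_biUnion k.1 k.2)
      ((toFinite _).isClosed_biUnion fun f _ => (isCompact_seg _ _).isClosed) h1
  obtain ⟨f, hF, hf⟩ := mem_iUnion₂.1 k1
  have k2 : 0 ≤ dd (D.pos (D.ea m)) (D.pos (D.eb m)) x :=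
    closure_minimal (t := {y | 0 ≤ dd (D.pos (D.ea m)) (D.pos (D.eb m)) y})
      (fun y hy => hy.2.1.le) (isClosed_le continuous_const (continuous_dd _ _)) h1
  refine ⟨f, hF, hf, ?_⟩
  rcases k2.eq_or_lt with k | k
  · exact Or.inl k.symm
  have k3 : ¬ D.lf m = true := fun k' => h2 ⟨⟨f, hF, hf⟩, k, Or.inl k'⟩
  have k4 : 0 ≤ dd (D.pos (D.eb m)) (D.pos (D.ea m)) x :=
    closure_minimal (t := {y | 0 ≤ dd (D.pos (D.eb m)) (D.pos (D.ea m)) y})
      (fun y hy => (hy.2.2.resolve_left k3).le)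
      (isClosed_le continuous_const (continuous_dd _ _)) h1
  exact Or.inr ⟨k3, (k4.eq_or_lt.resolve_right fun k' => h2 ⟨⟨f, hF, hf⟩, k, Or.inr k'⟩).symm⟩

theorem posAt_pos {v w a b : Fin N} {f : Fin K} (h : D.PosAt v w f a b) {x : ℂ}
    (hx : x ∈ D.seg f) (h0 : dd (D.pos v) (D.pos w) x = 0) : 0 < dd (D.pos a) (D.pos b) x := by
  obtain ⟨s, -, rfl⟩ := mem_seg.1 hx
  rw [dd_pt] at h0 ⊢
  refine pos_at h0 ?_
  simp only [dd_eq]
  exact_mod_cast h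

theorem Ok.exit (h : D.Ok) {v w : Fin N} {f : Fin K} (he : D.Exit v w f) {x : ℂ}
    (hx : x ∈ D.seg f) (h0 : dd (D.pos v) (D.pos w) x = 0) :
    ∃ m, x ∈ D.U m ∧ Run (drawing D.graph D.pos) x (D.pos v) (D.pp m x) := by
  rcases he with k | ⟨m, k1, k2, k3, k4⟩
  · obtain ⟨s, hs, rfl⟩ := mem_seg.1 hx
    rw [dd_pt] at h0
    exact (comb_ne (by simp only [dd_eq]; exact_mod_cast k) hs h0).elim
  have k5 := posAt_pos k3 hx h0
  refine ⟨m, ⟨⟨f, k2, hx⟩, k5, k4.imp And.left fun k => posAt_pos k hx h0⟩,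
    run_of_obtuse (proj_obtuse (h.pne m) (pos_mem k1)) ?_ fun y hy => h.mem_drawing.2
      ⟨m, (convex_segment _ _).segment_subset (pos_mem k1) (proj_mem (h.pne m) k5.le) hy⟩⟩
  rcases k4 with ⟨-, rfl⟩ | k4
  · exact proj_ne_left (h.pne m) k5
  · rcases k1 with rfl | rfl
    · exact proj_ne_left (h.pne m) k5
    · exact proj_ne_right (h.pne m) (posAt_pos k4 hx h0)

theorem exit_fin {v w : Fin N} {f : Fin K} (he : D.Exit v w f) :
    {x | x ∈ D.seg f ∧ dd (D.pos v) (D.pos w) x = 0}.Finite := by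
  refine zero_fin ?_
  simp only [dd_eq]
  rcases he with k | ⟨m, -, -, k, -⟩
  · exact Or.inr (by exact_mod_cast k)
  · refine Or.inl fun k' => ?_
    have k'' : D.dz v w (D.ea f) = D.dz v w (D.eb f) := by exact_mod_cast k'
    rw [PosAt, k'', sub_self (D.dz v w (D.eb f)), mul_zero] at k
    exact lt_irrefl _ k

theorem Ok.escape (h : D.Ok) {m₀ : Fin K} {h₀ : ℂ} (hm : h₀ ∈ D.U m₀) :
    ∃ δ > 0, ∃ R : (NNReal → ℂ) → NNReal → ℂ,
      (∀ w w' t, Walk (drawing D.graph D.pos) h₀ w → Walk (drawing D.graph D.pos) h₀ w' →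
        EqOn w w' (Iic t) → EqOn (R w) (R w') (Iic t)) ∧
      (∀ w, Walk (drawing D.graph D.pos) h₀ w →
        Follows (drawing D.graph D.pos) (D.pp m₀ h₀) w (R w) ∧ ∀ t, δ ≤ dist (w t) (R w t)) ∧
      ∀ S : Strategy (drawing D.graph D.pos) h₀, ∃ p, p = R (S.walk p) := by
  obtain ⟨δ, h0, hδ⟩ := h.delta
  refine ⟨δ, h0, Modes.escape ⟨D.U, D.pp, fun m => continuous_proj _ _,
    fun m x hx => ?_, fun m x hx => h.opn hx, fun m x h1 h2 => ?_, fun m => ?_⟩ hm⟩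
  · have k := proj_mem (h.pne m) hx.2.1.le
    obtain ⟨f, k1, k2⟩ := hx.1
    exact ⟨h.mem_drawing.2 ⟨m, k⟩, h.stable hx, hδ m f k1 x k2 _ k⟩
  · obtain ⟨f, k1, k2, k3 | ⟨k3, k4⟩⟩ := closure_U h1 h2
    · rw [pp, proj_left k3]
      exact h.exit (h.ext m f k1).1 k2 k3
    · rw [pp, proj_right (h.pne m) k4]
      exact h.exit ((h.ext m f k1).2.resolve_left k3) k2 k4
  · by_cases hl : D.lf m = true
    · refine ((toFinite {f | D.F m f = true}).biUnion fun f hf =>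
        exit_fin (h.ext m f hf).1).subset fun x hx => ?_
      obtain ⟨f, k1, k2, k3⟩ := closure_U hx.1 hx.2
      exact mem_biUnion k1 ⟨k2, k3.resolve_right fun k => k.1 hl⟩
    · refine ((toFinite {f | D.F m f = true}).biUnion fun f hf =>
        (exit_fin (h.ext m f hf).1).union
          (exit_fin ((h.ext m f hf).2.resolve_left hl))).subset fun x hx => ?_
      obtain ⟨f, k1, k2, k3⟩ := closure_U hx.1 hx.2
      exact mem_biUnion k1 (k3.imp (fun k => ⟨k2, k⟩) fun k => ⟨k2, k.2⟩)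

theorem Ok.conn [NeZero N] (h : D.Ok)
    (hc : ∀ v, v ≠ 0 → ∃ e, (D.eb e = v ∧ D.ea e < v) ∨ (D.ea e = v ∧ D.eb e < v)) :
    D.graph.Connected := by
  have key : ∀ v : Fin N, D.graph.Reachable 0 v := fun v => by
    induction v using WellFoundedLT.induction with
    | ind v ih =>
      by_cases k : v = 0
      · exact k ▸ .refl _
      obtain ⟨e, ⟨rfl, k1⟩ | ⟨rfl, k1⟩⟩ := hc v k
      · exact (ih _ k1).trans (h.adj e).reachable
      · exact (ih _ k1).trans (h.adj e).symm.reachable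
  exact ⟨fun a b => (key a).symm.trans (key b)⟩

end Dat

end Pool.Agent.Work.MP_4cf51e_co
end
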