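import Mathlib

/-! The human and puppy game on a straight-line plane drawing. The plane is `ℂ` with its
Euclidean distance and time is `ℝ≥0`. -/

namespace Pool.Agent.Work.MP_4cf51e_co

open Set Filter Topology NNReal

/-- `pos` is a straight-line embedding of `G`: vertices go to distinct points, no vertex lies on
an edge it does not belong to, and two different edges meet only in a common endpoint. -/
structure PlaneEmb {n : ℕ} (G : SimpleGraph (Fin n)) (pos : Fin n → ℂ) : Prop where
  inj : Function.Injective pos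
  vert : ∀ v a b, G.Adj a b → pos v ∈ segment ℝ (pos a) (pos b) → v = a ∨ v = b
  cross : ∀ a b c d, G.Adj a b → G.Adj c d → s(a, b) ≠ s(c, d) →
    ∀ x ∈ segment ℝ (pos a) (pos b), x ∈ segment ℝ (pos c) (pos d) →
      ∃ v, (v = a ∨ v = b) ∧ (v = c ∨ v = d) ∧ x = pos v

/-- The image of the embedding: all vertices and all edge segments. -/
def drawing {n : ℕ} (G : SimpleGraph (Fin n)) (pos : Fin n → ℂ) : Set ℂ :=
  range pos ∪ {x | ∃ a b, G.Adj a b ∧ x ∈ segment ℝ (pos a) (pos b)}

/-- The puppy at `p` cannot locally reduce its distance to the human at `h`. -/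
def Stable (Γ : Set ℂ) (h p : ℂ) : Prop :=
  ∃ ε > 0, ∀ q ∈ Γ, dist p q ≤ ε → dist h p ≤ dist h q

/-- An instantaneous move of the puppy from `q` to `r`, the human standing at `h`: no move, or a
path in `Γ` along which the distance to `h` strictly decreases. -/
def Run (Γ : Set ℂ) (h q r : ℂ) : Prop :=
  q = r ∨ ∃ c : ℝ → ℂ, ContinuousOn c (Icc 0 1) ∧ c 0 = q ∧ c 1 = r ∧ (∀ s ∈ Icc 0 1, c s ∈ Γ) ∧
    StrictAntiOn (fun s => dist h (c s)) (Icc 0 1)

/-- A continuous walk in `Γ` that starts at `h₀`. -/
structure Walk (Γ : Set ℂ) (h₀ : ℂ) (h : ℝ≥0 → ℂ) : Prop where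
  cont : Continuous h
  mem : ∀ t, h t ∈ Γ
  start : h 0 = h₀

/-- `p` is a motion of the infinitely fast puppy, started at `p₀`, while the human walks along
`h`: the configuration is stable at every time, `p` is right continuous, and at every time the
puppy gets from its left limit (from `p₀` at time `0`) to its position by a run. -/
structure Follows (Γ : Set ℂ) (p₀ : ℂ) (h p : ℝ≥0 → ℂ) : Prop where
  start : Run Γ (h 0) p₀ (p 0)
  mem : ∀ t, p t ∈ Γ
  stable : ∀ t, Stable Γ (h t) (p t)
  right : ∀ t, ContinuousWithinAt p (Ici t) t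
  left : ∀ t, 0 < t → ∃ q, Tendsto p (𝓝[<] t) (𝓝 q) ∧ Run Γ (h t) q (p t)

/-- A strategy of the human assigns a walk to every motion of the puppy, in a non-anticipating
way: at every time `t`, knowing the motion of the puppy up to time `t`, there is a walk `w`
which the human follows until a later time `s`, or until the next jump of the puppy if that comes
first, as long as the puppy answers `w` legally (in the drawing and stable). -/
structure Strategy (Γ : Set ℂ) (h₀ : ℂ) where
  walk : (ℝ≥0 → ℂ) → ℝ≥0 → ℂ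
  isWalk : ∀ p, Walk Γ h₀ (walk p)
  plan : ∀ p t, ∃ s, t < s ∧ ∃ w, Walk Γ h₀ w ∧ ∀ p' u, u ≤ s → EqOn p' p (Iic t) →
    ContinuousOn p' (Ico t u) → (∀ r ∈ Ico t u, p' r ∈ Γ ∧ Stable Γ (w r) (p' r)) →
    EqOn (walk p') w (Iic u)

end Pool.Agent.Work.MP_4cf51e_co
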