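import Pool.Agent.Work.MP_4cf51e_co.Cert

/-! The pinwheel with twelve arms. Arm `j` has the vertices `6j` (inner tip), `6j+1` (bend),
`6j+2` (outer tip), `6j+3` (bend), `6j+4` and `6j+5` (ends of the two pendant edges). -/

namespace Pool.Agent.Work.MP_4cf51e_co

/-- first coordinates -/
def xs : List ℤ := [
    10, 48, 77, 42, 3, 83, 9, 36, 66, 28, 5, 75, 5, 14, 37, 6, 5, 46, 0, -11, -1, -17, 4, 5, -5,
    -34, -39, -36, 2, -37, -9, -47, -67, -45, -1, -70, -10, -48, -77, -42, -3, -83, -9, -36, -66,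
    -28, -5, -75, -5, -14, -37, -6, -5, -46, 0, 11, 1, 17, -4, -5, 5, 34, 39, 36, -2, 37, 9, 47,
    67, 45, 1, 70]

/-- second coordinates -/
def ys : List ℤ := [
    0, 11, 1, 17, -4, -5, 5, 34, 39, 36, -2, 37, 9, 47, 67, 45, 1, 70, 10, 48, 77, 42, 3, 83, 9,
    36, 66, 28, 5, 75, 5, 14, 37, 6, 5, 46, 0, -11, -1, -17, 4, 5, -5, -34, -39, -36, 2, -37, -9,
    -47, -67, -45, -1, -70, -10, -48, -77, -42, -3, -83, -9, -36, -66, -28, -5, -75, -5, -14, -37,
    -6, -5, -46]

/-- first end of an edge -/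
def eaN (e : ℕ) : ℕ := if e % 6 = 4 then e - 4 else if e % 6 = 5 then e - 3 else e

/-- second end of an edge -/
def ebN (e : ℕ) : ℕ := if e % 6 = 3 then e + 3 else if e % 6 < 3 then e + 1 else e

/-- the edges of the human in a mode, relative to the previous arm -/
def relF (r d : ℕ) : Bool :=
  if r < 2 then d == 66 || d == 67 else if r < 4 then d == 68 || d == 69
  else if r = 4 then d == 63 || d == 66 || d == 70 else d == 67 || d == 68 || d == 71

/-- the data -/
def pin : Dat 72 72 where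
  px v := xs.getD v 0
  py v := ys.getD v 0
  ea e := Fin.ofNat 72 (eaN e)
  eb e := Fin.ofNat 72 (ebN e)
  lf e := 4 ≤ e.1 % 6
  F m f := relF (m.1 % 6) ((f.1 + 72 - 6 * (m.1 / 6)) % 72)

theorem pin_inj : ∀ a b, pin.px a = pin.px b → pin.py a = pin.py b → a = b := by decide +kernel

theorem pin_sep : ∀ e f, e ≠ f → pin.Sep (pin.ea e) (pin.eb e) (pin.ea f) (pin.eb f) := by
  decide +kernel

theorem pin_ok : pin.Ok :=
  ⟨pin_inj, by decide +kernel, by decide +kernel, pin_sep, by decide +kernel, by decide +kernel,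
    by decide +kernel, by decide +kernel⟩

theorem pin_conn : pin.graph.Connected := pin_ok.conn (by decide +kernel)

theorem pin_start : pin.pos 66 ∈ pin.U 4 := by
  refine ⟨⟨66, by decide +kernel, Dat.pos_mem (Or.inl (by decide +kernel))⟩, ?_,
    Or.inl (by decide +kernel)⟩
  rw [Dat.dd_eq]
  exact_mod_cast (by decide +kernel : 0 < pin.dz (pin.ea 4) (pin.eb 4) 66)

end Pool.Agent.Work.MP_4cf51e_co
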